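import Pool.Agent.H56.ER2.Targets

/-!
# MP_816b90_co: closed lemmas on paths in function form
-/

set_option autoImplicit false
set_option linter.unusedVariables false

namespace Pool.Agent.H56.ER2

open Pool.Agent.H48.ER Pool.Agent.H52.ER2 Pool.Agent.H66.ER2

variable {V : Type} {G : SimpleGraph V} {n m : ℕ} {x y u v w : V} {R : Set V} {g z : ℕ → V}

theorem mem_seg {i j k : ℕ} (h1 : i ≤ k) (h2 : k ≤ j) : g k ∈ seg g i j := ⟨k, h1, h2, rfl⟩

/-- a part of a path is a path -/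
theorem PF.sub (h : PF G n g) {i j : ℕ} (hij : i ≤ j) (hj : j ≤ n) :
    IP G (j - i) (g i) (g j) (seg g i j) := by
  refine ⟨fun k => g (i + k), rfl, ?_, ?_, ?_, ?_⟩
  · show g (i + (j - i)) = g j
    congr 1; omega
  · intro a b ha hb e
    have := h.inj (i + a) (i + b) (by omega) (by omega) e
    omega
  · intro a b ha hb
    show G.Adj (g (i + a)) (g (i + b)) ↔ _
    rw [h.adj (i + a) (i + b) (by omega) (by omega)]
    omega
  · ext w
    constructor
    · rintro ⟨k, h1, h2, rfl⟩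
      exact ⟨k - i, by omega, by show g (i + (k - i)) = g k; congr 1; omega⟩
    · rintro ⟨k, h1, rfl⟩
      exact ⟨i + k, by omega, by omega, rfl⟩

/-- the function of a path -/
theorem IP.toPF (h : IP G n x y R) : ∃ g, PF G n g ∧ g 0 = x ∧ g n = y ∧ R = seg g 0 n := by
  obtain ⟨g, h0, hn, hi, ha, hR⟩ := h
  refine ⟨g, ⟨hi, ha⟩, h0, hn, ?_⟩
  rw [hR]
  ext w
  constructor
  · rintro ⟨i, h1, rfl⟩
    exact ⟨i, Nat.zero_le _, h1, rfl⟩
  · rintro ⟨i, _, h1, rfl⟩
    exact ⟨i, h1, rfl⟩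

theorem PF.rev (h : PF G n g) : PF G n (rz n g) := by
  refine ⟨?_, ?_⟩
  · intro i j hi hj e
    have := h.inj (n - i) (n - j) (Nat.sub_le _ _) (Nat.sub_le _ _) e
    omega
  · intro i j hi hj
    show G.Adj (g (n - i)) (g (n - j)) ↔ _
    rw [h.adj (n - i) (n - j) (Nat.sub_le _ _) (Nat.sub_le _ _)]
    omega

/-- a vertex which sees only the ends of a part of the path -/
theorem PF.gap (hG : NOH G) (h : PF G n g) {i j : ℕ} (hij : i + 2 ≤ j) (hj : j ≤ n)
    (hc : ∀ k, i ≤ k → k ≤ j → g k ≠ v) (h1 : G.Adj v (g i)) (h2 : G.Adj v (g j))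
    (h3 : ∀ k, i < k → k < j → ¬ G.Adj v (g k)) : Even (j - i) := by
  refine hG (j - i) (g i) (g j) v (seg g i j) (PF.sub h (by omega) hj) (by omega) ?_ h1 h2 ?_
  · rintro ⟨k, a, b, e⟩
    exact hc k a b e
  · rintro w ⟨k, a, b, rfl⟩ hw
    by_cases e1 : k = i
    · exact Or.inl (by rw [e1])
    · by_cases e2 : k = j
      · exact Or.inr (by rw [e2])
      · exact (h3 k (by omega) (by omega) hw).elim

/-- `w` in `seg` by index -/
theorem seg_forall {i j : ℕ} {p : V → Prop} : (∀ w ∈ seg g i j, p w) ↔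
    ∀ k, i ≤ k → k ≤ j → p (g k) := by
  constructor
  · intro h k h1 h2
    exact h _ ⟨k, h1, h2, rfl⟩
  · rintro h w ⟨k, h1, h2, rfl⟩
    exact h k h1 h2

theorem seg_self (i : ℕ) : seg g i i = {g i} := by
  ext w
  constructor
  · rintro ⟨k, h1, h2, rfl⟩
    have : k = i := by omega
    rw [this]; rfl
  · rintro rfl
    exact ⟨i, le_rfl, le_rfl, rfl⟩

/-- the interior of the outer path is a segment -/
theorem Wz_eq (hn : 2 ≤ n) : Wz n z = seg z 1 (n - 1) := by
  ext w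
  constructor
  · rintro ⟨i, h1, h2, rfl⟩
    exact ⟨i, by omega, by omega, rfl⟩
  · rintro ⟨i, h1, h2, rfl⟩
    exact ⟨i, by omega, by omega, rfl⟩

theorem mem_Wz {i : ℕ} (h1 : 0 < i) (h2 : i < n) : z i ∈ Wz n z := ⟨i, h1, h2, rfl⟩

/-- the interior of the outer path as a path -/
theorem Stg.ipW (h : Stg G v n z) : IP G (n - 2) (z 1) (z (n - 1)) (Wz n z) := by
  have h2 := h.so.two
  have := PF.sub h.so.pf (i := 1) (j := n - 1) (by omega) (by omega)
  rw [Wz_eq h2]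
  have e : n - 1 - 1 = n - 2 := by omega
  rwa [e] at this

/-- part of the interior of the outer path as a path -/
theorem Stg.ipS (h : Stg G v n z) {i j : ℕ} (hij : i ≤ j) (hj : j ≤ n) :
    IP G (j - i) (z i) (z j) (seg z i j) := PF.sub h.so.pf hij hj

theorem Stg.sees0 {a : V} (ha : a ∈ sA G v n z) (hn : 2 ≤ n) : ∀ w ∈ Wz n z, G.Adj a w ↔ w = z 1 := by
  rintro w ⟨i, h1, h2, rfl⟩
  constructor
  · intro h
    by_cases e : i = 1
    · rw [e]
    · exact (ha.2.2 i (by omega) h2 h).elim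
  · intro h
    rw [h]
    exact ha.2.1

theorem Stg.seesn {b : V} (hb : b ∈ sB G v n z) (hn : 2 ≤ n) :
    ∀ w ∈ Wz n z, G.Adj b w ↔ w = z (n - 1) := by
  rintro w ⟨i, h1, h2, rfl⟩
  constructor
  · intro h
    by_cases e : i = n - 1
    · rw [e]
    · exact (hb.2.2 i (by omega) (by omega) h).elim
  · intro h
    rw [h]
    exact hb.2.1

/-- contradiction from a prism with corner `v` -/
theorem Stg.noCo (h : Stg G v n z) {c c' : V} {A : Set V} {B : Set V}
    (hp : ∃ (a b : Fin 3 → V) (n : Fin 3 → ℕ) (P : Fin 3 → Set V), Prism G a b n P ∧ a 0 = v ∧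
      a 1 = c ∧ a 2 = c' ∧ P 0 ⊆ A ∧ P 1 ∪ P 2 = B) : False := by
  obtain ⟨a, b, n', P, hP, h0, _⟩ := hp
  exact (h.nco a b n' P hP 0).1 h0.symm

end Pool.Agent.H56.ER2
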