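import Pool.Agent.H56.ER2.Lib

/-!
# MP_816b90_co: inheritance of the conditions on `v` by meets (INH)
-/

set_option autoImplicit false
set_option linter.unusedVariables false

namespace Pool.Agent.H56.ER2

open Pool.Agent.H48.ER Pool.Agent.H52.ER2 Pool.Agent.H66.ER2

variable {V : Type} {G : SimpleGraph V}

/-- the hole of two rungs without the edge `a i a j` -/
theorem prism_arc {a b : Fin 3 → V} {n : Fin 3 → ℕ} {P : Fin 3 → Set V}
    (hP : Prism G a b n P) {i j : Fin 3} (hij : i ≠ j) :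
    ∃ (s t : V) (R : Set V), IP G (n i + n j - 1) s t R ∧ a i ∉ R ∧ a j ∉ R ∧
      (∀ w ∈ R, G.Adj (a i) w ↔ w = s) ∧ (∀ w ∈ R, G.Adj (a j) w ↔ w = t) ∧
      insert (a i) (insert (a j) R) = P i ∪ P j ∧ b i ∈ R ∧ b j ∈ R := by
  obtain ⟨g, pg, g0, gn, hg⟩ := IP.toPF (hP.ip i)
  obtain ⟨k, pk, k0, kn, hk⟩ := IP.toPF (hP.ip j)
  have hi := hP.pos i
  have hj := hP.pos j
  have hgi : ∀ e, e ≤ n i → g e ∈ P i := fun e he => by rw [hg]; exact ⟨e, by omega, he, rfl⟩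
  have hkj : ∀ e, e ≤ n j → k e ∈ P j := fun e he => by rw [hk]; exact ⟨e, by omega, he, rfl⟩
  have hdis := Set.disjoint_left.1 (hP.dis i j hij)
  have p1 := PF.sub pg (i := 1) (j := n i) hi le_rfl
  have p2 := (PF.sub pk (i := 1) (j := n j) hj le_rfl).rev
  have hd : Disjoint (seg g 1 (n i)) (seg k 1 (n j)) := by
    rw [Set.disjoint_left]
    rintro _ ⟨e, _, h2, rfl⟩ ⟨f, _, h4, h5⟩
    exact hdis (hgi e h2) (h5 ▸ hkj f h4)
  have hadj : ∀ e f, e ≤ n i → f ≤ n j → (G.Adj (g e) (k f) ↔ (e = 0 ∧ f = 0) ∨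
      (e = n i ∧ f = n j)) := by
    intro e f he hf
    rw [hP.adj i j hij _ (hgi e he) _ (hkj f hf)]
    constructor
    · rintro (⟨h1, h2⟩ | ⟨h1, h2⟩)
      · left
        exact ⟨pg.inj e 0 he (by omega) (h1.trans g0.symm),
          pk.inj f 0 hf (by omega) (h2.trans k0.symm)⟩
      · right
        exact ⟨pg.inj e _ he le_rfl (h1.trans gn.symm), pk.inj f _ hf le_rfl (h2.trans kn.symm)⟩
    · rintro (⟨rfl, rfl⟩ | ⟨rfl, rfl⟩)
      · exact Or.inl ⟨g0, k0⟩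
      · exact Or.inr ⟨gn, kn⟩
  have he : XE G (seg g 1 (n i)) (seg k 1 (n j)) (g (n i)) (k (n j)) := by
    rintro _ ⟨e, h1, h2, rfl⟩ _ ⟨f, h3, h4, rfl⟩
    rw [hadj e f h2 h4]
    constructor
    · rintro (⟨h, _⟩ | ⟨h, h'⟩)
      · omega
      · rw [h, h']; exact ⟨rfl, rfl⟩
    · rintro ⟨h, h'⟩
      right
      exact ⟨pg.inj e _ h2 le_rfl h, pk.inj f _ h4 le_rfl h'⟩
  have p3 := p1.append p2 hd he
  have elen : n i - 1 + (n j - 1) + 1 = n i + n j - 1 := by omega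
  rw [elen] at p3
  refine ⟨g 1, k 1, _, p3, ?_, ?_, ?_, ?_, ?_, ?_, ?_⟩
  · rw [← g0]
    rintro (⟨e, h1, h2, h3⟩ | ⟨f, h1, h2, h3⟩)
    · have := pg.inj e 0 h2 (by omega) h3
      omega
    · exact hdis (hgi 0 (by omega)) (h3 ▸ hkj f h2)
  · rw [← k0]
    rintro (⟨e, h1, h2, h3⟩ | ⟨f, h1, h2, h3⟩)
    · exact hdis (hgi e h2) (h3 ▸ hkj 0 (by omega))
    · have := pk.inj f 0 h2 (by omega) h3
      omega
  · rw [← g0]
    rintro w (⟨e, h1, h2, rfl⟩ | ⟨f, h1, h2, rfl⟩)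
    · rw [pg.adj 0 e (by omega) h2]
      constructor
      · intro h
        have : e = 1 := by omega
        rw [this]
      · intro h
        have := pg.inj e 1 h2 (by omega) h
        omega
    · rw [hadj 0 f (by omega) h2]
      constructor
      · rintro (h | h) <;> omega
      · intro h
        exact (hdis (hgi 1 hi) (h ▸ hkj f h2)).elim
  · rw [← k0]
    rintro w (⟨e, h1, h2, rfl⟩ | ⟨f, h1, h2, rfl⟩)
    · rw [SimpleGraph.adj_comm, hadj e 0 h2 (by omega)]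
      constructor
      · rintro (h | h) <;> omega
      · intro h
        exact (hdis (hgi e h2) (h ▸ hkj 1 hj)).elim
    · rw [pk.adj 0 f (by omega) h2]
      constructor
      · intro h
        have : f = 1 := by omega
        rw [this]
      · intro h
        have := pk.inj f 1 h2 (by omega) h
        omega
  · ext w
    constructor
    · rintro (rfl | rfl | ⟨e, h1, h2, rfl⟩ | ⟨f, h1, h2, rfl⟩)
      · exact Or.inl (hP.a_mem i)
      · exact Or.inr (hP.a_mem j)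
      · exact Or.inl (hgi e h2)
      · exact Or.inr (hkj f h2)
    · rintro (h | h)
      · rw [hg] at h
        obtain ⟨e, _, h2, rfl⟩ := h
        by_cases e0 : e = 0
        · left; rw [e0, g0]
        · exact Or.inr (Or.inr (Or.inl ⟨e, by omega, h2, rfl⟩))
      · rw [hk] at h
        obtain ⟨e, _, h2, rfl⟩ := h
        by_cases e0 : e = 0
        · right; left; rw [e0, k0]
        · exact Or.inr (Or.inr (Or.inr ⟨e, by omega, h2, rfl⟩))
  · exact Or.inl ⟨n i, hi, le_rfl, gn⟩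
  · exact Or.inr ⟨n j, hj, le_rfl, kn⟩

theorem mt_adj_ne {v u a b : V} (ha : a ≠ v) (hb : b ≠ v) (ha' : a ≠ u) (hb' : b ≠ u) :
    (mt G v u).Adj a b ↔ G.Adj a b :=
  ⟨fun h => h.2.2.1, fun h => ⟨ha', hb', h, fun e => (ha e).elim, fun e => (hb e).elim⟩⟩

theorem mt_adj_v {v u w : V} (huv : u ≠ v) : (mt G v u).Adj v w ↔ G.Adj v w ∧ G.Adj u w := by
  constructor
  · rintro ⟨_, _, h3, h4, _⟩
    exact ⟨h3, h4 rfl⟩
  · rintro ⟨h1, h2⟩
    refine ⟨Ne.symm huv, ?_, h1, fun _ => h2, ?_⟩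
    · rintro rfl; exact G.loopless.irrefl _ h2
    · rintro rfl; exact (G.loopless.irrefl _ h1).elim

/-- vertices of a prism have neighbours -/
theorem prism_nb {a b : Fin 3 → V} {n : Fin 3 → ℕ} {P : Fin 3 → Set V} (hP : Prism G a b n P)
    {w : V} (hw : w ∈ ver P) : ∃ x, G.Adj w x := by
  obtain ⟨i, hi⟩ := hw
  obtain ⟨g, pg, g0, gn, hg⟩ := IP.toPF (hP.ip i)
  have hpos := hP.pos i
  rw [hg] at hi
  obtain ⟨e, _, h2, rfl⟩ := hi
  by_cases e0 : e = 0
  · exact ⟨g 1, (pg.adj e 1 h2 hpos).2 (by omega)⟩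
  · exact ⟨g (e - 1), (pg.adj e (e - 1) h2 (by omega)).2 (by omega)⟩

theorem mt_not_mem {v u : V} {a b : Fin 3 → V} {n : Fin 3 → ℕ} {P : Fin 3 → Set V}
    (hP : Prism (mt G v u) a b n P) : u ∉ ver P := by
  intro h
  obtain ⟨x, hx⟩ := prism_nb hP h
  exact hx.1 rfl

/-- the leap -/
theorem leap_false {r : ℕ} {v u s t y : V} {R : Set V} (hG : NOH G) (hR : IP G r s t R)
    (hr : Odd r) (hvu : v ≠ u) (hnvu : ¬ G.Adj v u) (hv : v ∉ R) (hu : u ∉ R) (hy : y ∉ R)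
    (hvs : ∀ w ∈ R, G.Adj v w ↔ w = s) (hut : ∀ w ∈ R, G.Adj u w ↔ w = t)
    (hyR : ∀ w ∈ R, ¬ G.Adj y w) (hvy : G.Adj v y) (huy : G.Adj u y) : False := by
  have h1 := hR.snoc (u := u) hu hut
  have h2 : y ∉ insert u R := by
    rintro (e | e)
    · exact G.loopless.irrefl _ (e ▸ huy)
    · exact hy e
  have h3 := h1.snoc (u := y) h2 (by
    rintro w (rfl | hw)
    · exact ⟨fun _ => rfl, fun _ => huy.symm⟩
    · constructor
      · intro h; exact (hyR w hw h).elim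
      · rintro rfl; exact (hu hw).elim)
  have h4 : v ∉ insert y (insert u R) := by
    rintro (e | e | e)
    · exact G.loopless.irrefl _ (e ▸ hvy)
    · exact hvu e
    · exact hv e
  have h5 := hG (r + 1 + 1) s y v _ h3 (by omega) h4 ((hvs s hR.left_mem).2 rfl) hvy (by
    rintro w (rfl | rfl | hw) h
    · exact Or.inr rfl
    · exact (hnvu h).elim
    · exact Or.inl ((hvs w hw).1 h))
  obtain ⟨p, hp⟩ := hr
  obtain ⟨q, hq⟩ := h5
  omega

theorem inh_corner (hEVN : T_EVN) (hPPR : T_PPR) (hRH2 : T_RH2) (hTWO : T_TWO) (hCNI : T_CNI)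
    {v u : V} (hG : Cls G) (hG' : Cls (mt G v u)) (hc : NCo G v) (ht : Tame G v) (huv : u ≠ v)
    (hnu : ¬ G.Adj u v) {a b : Fin 3 → V} {n : Fin 3 → ℕ} {P : Fin 3 → Set V}
    (hP : Prism (mt G v u) a b n P) (h0 : a 0 = v) : False := by
  have hev : ∀ i, Even (n i) := (hEVN V _ a b n P hG'.noh hP).2 hG'.nop
  have hn2 : ∀ i, 2 ≤ n i := by
    intro i
    have h1 := hP.pos i
    obtain ⟨k, hk⟩ := hev i
    omega
  have hu := mt_not_mem hP
  have hvP : v ∈ P 0 := h0 ▸ hP.a_mem 0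
  obtain ⟨g, pg, g0, gn, hg⟩ := IP.toPF (hP.ip 0)
  obtain ⟨s, t, R, hR, haR, ha'R, hcR, hc'R, hins, hbR, hb'R⟩ :=
    prism_arc hP (i := 1) (j := 2) (by decide)
  have hRP : ∀ w ∈ R, w ∈ P 1 ∪ P 2 := by
    intro w hw
    rw [← hins]
    exact Or.inr (Or.inr hw)
  have hver : ∀ w ∈ P 1 ∪ P 2, w ∈ ver P ∧ w ≠ v := by
    rintro w (hw | hw)
    · exact ⟨mem_ver hw, fun e => hP.ne_of_mem (i := 1) (j := 0) (by decide) hw hvP e⟩
    · exact ⟨mem_ver hw, fun e => hP.ne_of_mem (i := 2) (j := 0) (by decide) hw hvP e⟩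
  have hadj : ∀ x y, x ∈ ver P → y ∈ ver P → x ≠ v → y ≠ v →
      (G.Adj x y ↔ (mt G v u).Adj x y) := by
    intro x y hx hy hx' hy'
    have h5 : x ≠ u := by rintro rfl; exact hu hx
    have h6 : y ≠ u := by rintro rfl; exact hu hy
    exact (mt_adj_ne hx' hy' h5 h6).symm
  have hRG : IP G (n 1 + n 2 - 1) s t R := hR.congr fun x hx y hy =>
    hadj x y (hver x (hRP x hx)).1 (hver y (hRP y hy)).1 (hver x (hRP x hx)).2
      (hver y (hRP y hy)).2
  have h1P := hver _ (Or.inl (hP.a_mem 1))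
  have h2P := hver _ (Or.inr (hP.a_mem 2))
  have hcG : ∀ w ∈ R, G.Adj (a 1) w ↔ w = s := fun w hw => by
    rw [hadj _ _ h1P.1 (hver w (hRP w hw)).1 h1P.2 (hver w (hRP w hw)).2]
    exact hcR w hw
  have hcG' : ∀ w ∈ R, G.Adj (a 2) w ↔ w = t := fun w hw => by
    rw [hadj _ _ h2P.1 (hver w (hRP w hw)).1 h2P.2 (hver w (hRP w hw)).2]
    exact hc'R w hw
  have hcc : G.Adj (a 1) (a 2) := (hP.a_adj (i := 1) (j := 2) (by decide)).2.2.1
  have hvR : v ∉ R := fun h => (hver v (hRP v h)).2 rfl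
  have huR : u ∉ R := fun h => hu (hver u (hRP u h)).1
  have hv1 : G.Adj v (a 1) ∧ G.Adj u (a 1) := by
    have := hP.a_adj (i := 0) (j := 1) (by decide)
    rw [h0] at this
    exact (mt_adj_v huv).1 this
  have hv2 : G.Adj v (a 2) ∧ G.Adj u (a 2) := by
    have := hP.a_adj (i := 0) (j := 2) (by decide)
    rw [h0] at this
    exact (mt_adj_v huv).1 this
  have hvno : ∀ w ∈ P 1 ∪ P 2, w ≠ a 1 → w ≠ a 2 → ¬ (G.Adj v w ∧ G.Adj u w) := by
    rintro w hw hw1 hw2 h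
    have h'' := (mt_adj_v huv).2 h
    have h' : (mt G v u).Adj (a 0) w := by rw [h0]; exact h''
    rcases hw with hw | hw
    · rcases (hP.adj 0 1 (by decide) _ (hP.a_mem 0) w hw).1 h' with ⟨_, e⟩ | ⟨e, _⟩
      · exact hw1 e
      · exact hP.a_ne_b 0 0 e
    · rcases (hP.adj 0 2 (by decide) _ (hP.a_mem 0) w hw).1 h' with ⟨_, e⟩ | ⟨e, _⟩
      · exact hw2 e
      · exact hP.a_ne_b 0 0 e
  have hno : ∀ w ∈ R, ¬ (G.Adj v w ∧ G.Adj u w) := fun w hw =>
    hvno w (hRP w hw) (fun e => haR (e ▸ hw)) (fun e => ha'R (e ▸ hw))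
  -- the rung of `v`
  have hgP : ∀ e, e ≤ n 0 → g e ∈ P 0 := fun e he => by rw [hg]; exact ⟨e, by omega, he, rfl⟩
  have hgv : ∀ e, 1 ≤ e → e ≤ n 0 → g e ≠ v := by
    intro e h1 h2 h3
    have := pg.inj e 0 h2 (by omega) (by rw [h3, g0, h0])
    omega
  have hD : IP G (n 0 - 1) (g 1) (g (n 0)) (seg g 1 (n 0)) := by
    have h2 := hn2 0
    refine (PF.sub pg (i := 1) (j := n 0) (by omega) le_rfl).congr ?_
    rintro x ⟨e, h3, h4, rfl⟩ y ⟨f, h5, h6, rfl⟩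
    exact hadj _ _ (mem_ver (hgP e h4)) (mem_ver (hgP f h6)) (hgv e h3 h4) (hgv f h5 h6)
  have hvy : G.Adj v (g 1) ∧ G.Adj u (g 1) := by
    have h2 := hn2 0
    have h3 := (pg.adj 0 1 (by omega) (by omega)).2 (by omega)
    rw [g0, h0] at h3
    exact (mt_adj_v huv).1 h3
  have hDP : ∀ w ∈ seg g 1 (n 0), w ∈ P 0 ∧ w ≠ v := by
    rintro _ ⟨e, h1, h2, rfl⟩
    exact ⟨hgP e h2, hgv e h1 h2⟩
  have hDa : ∀ w ∈ seg g 1 (n 0), ¬ G.Adj w (a 1) ∧ ¬ G.Adj w (a 2) := by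
    intro w hw
    obtain ⟨hw1, hw2⟩ := hDP w hw
    constructor
    · intro h
      rw [hadj _ _ (mem_ver hw1) h1P.1 hw2 h1P.2] at h
      rcases (hP.adj 0 1 (by decide) w hw1 _ (hP.a_mem 1)).1 h with ⟨e, _⟩ | ⟨_, e⟩
      · exact hw2 (e.trans h0)
      · exact hP.a_ne_b 1 1 e
    · intro h
      rw [hadj _ _ (mem_ver hw1) h2P.1 hw2 h2P.2] at h
      rcases (hP.adj 0 2 (by decide) w hw1 _ (hP.a_mem 2)).1 h with ⟨e, _⟩ | ⟨_, e⟩
      · exact hw2 (e.trans h0)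
      · exact hP.a_ne_b 2 2 e
  have hr : Odd (n 1 + n 2 - 1) := by
    obtain ⟨k, hk⟩ := hev 1
    obtain ⟨l, hl⟩ := hev 2
    have := hn2 1
    exact ⟨k + l - 1, by omega⟩
  have hyR : g 1 ∉ R ∧ ∀ w ∈ R, ¬ G.Adj (g 1) w := by
    have h2 := hn2 0
    have hgm : g 1 ∈ P 0 := hgP 1 (by omega)
    have hgb : g 1 ≠ b 0 := by
      intro e
      have := pg.inj 1 (n 0) (by omega) le_rfl (e.trans gn.symm)
      omega
    have hga : g 1 ≠ a 0 := by rw [h0]; exact hgv 1 le_rfl (by omega)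
    constructor
    · intro h
      rcases hRP _ h with h | h
      · exact hP.ne_of_mem (i := 0) (j := 1) (by decide) hgm h rfl
      · exact hP.ne_of_mem (i := 0) (j := 2) (by decide) hgm h rfl
    · intro w hw h
      rw [hadj _ _ (mem_ver hgm) (hver w (hRP w hw)).1 (hgv 1 le_rfl (by omega))
        (hver w (hRP w hw)).2] at h
      rcases hRP w hw with hw' | hw'
      · rcases (hP.adj 0 1 (by decide) _ hgm w hw').1 h with ⟨e, _⟩ | ⟨e, _⟩
        · exact hga e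
        · exact hgb e
      · rcases (hP.adj 0 2 (by decide) _ hgm w hw').1 h with ⟨e, _⟩ | ⟨e, _⟩
        · exact hga e
        · exact hgb e
  have hDconn : Cn G (seg g 1 (n 0)) := hCNI V G _ _ _ _ hD
  have hDsee : ∃ w ∈ seg g 1 (n 0), w ∈ R ∨ ∃ x ∈ R, G.Adj w x := by
    have h2 := hn2 0
    refine ⟨g (n 0), ⟨n 0, by omega, le_rfl, rfl⟩, Or.inr ⟨b 1, hbR, ?_⟩⟩
    rw [gn]
    exact (hP.b_adj (i := 0) (j := 1) (by decide)).2.2.1
  have h1r : 1 ≤ n 1 + n 2 - 1 := by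
    have := hn2 1
    omega
  have hcD : a 1 ∉ seg g 1 (n 0) := fun h =>
    hP.ne_of_mem (i := 0) (j := 1) (by decide) (hDP _ h).1 (hP.a_mem 1) rfl
  have hc'D : a 2 ∉ seg g 1 (n 0) := fun h =>
    hP.ne_of_mem (i := 0) (j := 2) (by decide) (hDP _ h).1 (hP.a_mem 2) rfl
  have hvD : v ∉ seg g 1 (n 0) := fun h => (hDP _ h).2 rfl
  have huD : u ∉ seg g 1 (n 0) := fun h => hu (mem_ver (hDP _ h).1)
  have hgD : g 1 ∈ seg g 1 (n 0) := ⟨1, le_rfl, by have := hn2 0; omega, rfl⟩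
  by_cases hvs : ∃ w ∈ R, G.Adj v w
  · by_cases hus : ∃ w ∈ R, G.Adj u w
    · -- leap
      rcases hRH2 V G v u (a 1) (a 2) s t _ R hG.noh hRG h1r haR ha'R hcc hcG hcG' hvR huR
        (Ne.symm huv) (fun h => hnu h.symm) hv1.1 hv2.1 hv1.2 hv2.2 hno hvs hus with h | h
      · exact leap_false hG.noh hRG hr (Ne.symm huv) (fun h => hnu h.symm) hvR huR hyR.1
          (fun w hw => (h w hw).1) (fun w hw => (h w hw).2) hyR.2 hvy.1 hvy.2
      · exact leap_false hG.noh hRG.rev hr (Ne.symm huv) (fun h => hnu h.symm) hvR huR hyR.1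
          (fun w hw => (h w hw).1) (fun w hw => (h w hw).2) hyR.2 hvy.1 hvy.2
    · -- `u` is a hat
      obtain ⟨a', b', n', P', hP', e0, e1, e2, hs0, hs12⟩ :=
        hPPR V G u (a 1) (a 2) s t _ R (seg g 1 (n 0)) hG.noh hRG h1r haR ha'R hcc hcG hcG' huR
          hv1.2 hv2.2 (fun w hw h => hus ⟨w, hw, h⟩) hDconn huD hcD hc'D hDa
          ⟨g 1, hgD, hvy.2⟩ hDsee
      have hvP' : v ∉ ver P' := by
        have h12 : v ∉ P' 1 ∪ P' 2 := by
          rw [hs12]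
          rintro (e | e | e)
          · exact G.loopless.irrefl _ (e ▸ hv1.1)
          · exact G.loopless.irrefl _ (e ▸ hv2.1)
          · exact hvR e
        rintro ⟨i, hi⟩
        have h3 : i = 0 ∨ i = 1 ∨ i = 2 := by fin_cases i <;> simp
        rcases h3 with rfl | rfl | rfl
        · rcases hs0 hi with e | e
          · exact huv e.symm
          · exact hvD e
        · exact h12 (Or.inl hi)
        · exact h12 (Or.inr hi)
      obtain ⟨w, hw, hvw⟩ := hvs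
      have hw' : w ∈ P' 1 ∪ P' 2 := by rw [hs12]; exact Or.inr (Or.inr hw)
      have := hTWO V G a' b' n' P' v hG hP' hvP' (by rw [e1]; exact hv1.1)
        (by rw [e2]; exact hv2.1) (by rw [e0]; exact fun h => hnu h.symm)
        ⟨w, hw', by rw [e1]; exact fun e => haR (e ▸ hw), by rw [e2]; exact fun e => ha'R (e ▸ hw),
          hvw⟩
      exact ht a' b' n' P' hP' hvP' ⟨⟨1, 2, by decide, by rw [e1]; exact hv1.1,
        by rw [e2]; exact hv2.1⟩, this⟩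
  · -- `v` is a hat
    obtain ⟨a', b', n', P', hP', e0, _⟩ :=
      hPPR V G v (a 1) (a 2) s t _ R (seg g 1 (n 0)) hG.noh hRG h1r haR ha'R hcc hcG hcG' hvR
        hv1.1 hv2.1 (fun w hw h => hvs ⟨w, hw, h⟩) hDconn hvD hcD hc'D hDa
        ⟨g 1, hgD, hvy.1⟩ hDsee
    exact (hc a' b' n' P' hP' 0).1 e0.symm

theorem pf_INH (hMEET : T_MEET) (hEVN : T_EVN) (hPPR : T_PPR) (hRH2 : T_RH2) (hTWO : T_TWO)
    (hCNI : T_CNI) : T_INH := by
  intro V G v u hG hc ht huv hnu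
  have hG' : Cls (mt G v u) := hMEET V G v u hG (Ne.symm huv) (fun h => hnu h.symm)
  refine ⟨?_, ?_⟩
  · intro a b n P hP i
    have key : ∀ (a b : Fin 3 → V) (n : Fin 3 → ℕ) (P : Fin 3 → Set V),
        Prism (mt G v u) a b n P → ∀ i, v ≠ a i := by
      intro a b n P hP i hi
      have hinj : Function.Injective (fun j : Fin 3 => i + j) := fun x y h => add_left_cancel h
      have h1 := hP.perm (fun j => i + j) hinj
      exact inh_corner hEVN hPPR hRH2 hTWO hCNI hG hG' hc ht huv hnu h1 (by simpa using hi.symm)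
    exact ⟨key a b n P hP i, key b a n P hP.flip i⟩
  · rintro a b n P hP hv ⟨⟨i, j, hij, h1, h2⟩, i', j', hij', h1', h2'⟩
    have hu := mt_not_mem hP
    have hPG : Prism G a b n P := hP.congr (by
      intro x hx y hy
      have h3 : x ≠ v := by rintro rfl; exact hv hx
      have h4 : y ≠ v := by rintro rfl; exact hv hy
      have h5 : x ≠ u := by rintro rfl; exact hu hx
      have h6 : y ≠ u := by rintro rfl; exact hu hy
      exact (mt_adj_ne h3 h4 h5 h6).symm)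
    exact ht a b n P hPG hv ⟨⟨i, j, hij, ((mt_adj_v huv).1 h1).1, ((mt_adj_v huv).1 h2).1⟩,
      i', j', hij', ((mt_adj_v huv).1 h1').1, ((mt_adj_v huv).1 h2').1⟩

end Pool.Agent.H56.ER2
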