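import Pool.Agent.H21.ER2.MPC

/-!
# MP_816b90_co: row MPC without the hypothesis `T_HTR` (proof of helper21)
-/

set_option autoImplicit false
set_option linter.unusedVariables false

namespace Pool.Agent.H56.ER2

open Pool.Agent.H48.ER Pool.Agent.H52.ER2 Pool.Agent.H66.ER2 Pool.Agent.H21.ER2

theorem pf_MPC2 (hLAB : T_LAB) (hEVN : T_EVN) : T_MPC := by
  classical
  intro V G s t k n m y b1 a2 b2 a3 b3 Y P Q noh nop nah hst hnst cy ipY hk dis adj hs ht hcom
  obtain ⟨g, g0, gn, gn1, gN, hP, hQ, gi, ga⟩ := cy.fn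
  obtain ⟨N, hN⟩ : ∃ N, N = n + m + 1 := ⟨_, rfl⟩
  rw [← hN] at gN hQ gi ga
  have hn1 : 1 ≤ n := cy.hn.pos
  have hm1 : 1 ≤ m := cy.hm.pos
  have hPQ : ∀ i, i ≤ N → g i ∈ P ∪ Q := by
    intro i hi
    by_cases h : i ≤ n
    · left
      rw [hP]
      exact ⟨i, Nat.zero_le _, h, rfl⟩
    · right
      rw [hQ]
      exact ⟨i, by omega, hi, rfl⟩
  have hPQ' : ∀ w ∈ P ∪ Q, ∃ i, i ≤ N ∧ g i = w := by
    rintro w (hw | hw)
    · rw [hP] at hw
      obtain ⟨i, h1, h2, h3⟩ := hw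
      exact ⟨i, by omega, h3⟩
    · rw [hQ] at hw
      obtain ⟨i, h1, h2, h3⟩ := hw
      exact ⟨i, by omega, h3⟩
  have hyY : y ∈ Y := ipY.left_mem
  have hsg : ∀ i, i ≤ N → s ≠ g i := fun i hi h => hs (Or.inr (h ▸ hPQ i hi))
  have htg : ∀ i, i ≤ N → t ≠ g i := fun i hi h => ht (Or.inr (h ▸ hPQ i hi))
  have hyg0 : ∀ i, i ≤ N → y ≠ g i := fun i hi h =>
    Set.disjoint_left.1 dis hyY (h ▸ hPQ i hi)
  have cy_ := (hcom y (Or.inl hyY)).2 (Or.inl rfl)
  have c2 := (hcom a2 (Or.inr (Or.inl cy.ipP.left_mem))).2 (Or.inr (Or.inl rfl))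
  have c3 := (hcom a3 (Or.inr (Or.inr cy.ipQ.left_mem))).2 (Or.inr (Or.inr rfl))
  have hex : ∀ i, 0 < i → i < N → ¬ (G.Adj s (g i) ∧ G.Adj t (g i)) := by
    intro i h0 h1 h
    rcases (hcom (g i) (Or.inr (hPQ i h1.le))).1 h with h' | h' | h'
    · exact hyg0 i h1.le h'.symm
    · rw [← g0] at h'
      have := gi i 0 h1.le (by omega) h'
      omega
    · rw [← gN] at h'
      have := gi i N h1.le (by omega) h'
      omega
  have hyg : ∀ i, i ≤ N → (G.Adj y (g i) ↔ k = 0 ∧ (i = n ∨ i = n + 1)) := by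
    intro i hi
    rw [adj y hyY (g i) (hPQ i hi)]
    constructor
    · rintro ⟨h1, h2⟩
      refine ⟨?_, ?_⟩
      · by_contra hk0
        exact ipY.ne (by omega) h1
      · rcases h2 with h2 | h2
        · left
          rw [← gn] at h2
          exact gi i n hi (by omega) h2
        · right
          rw [← gn1] at h2
          exact gi i (n + 1) hi (by omega) h2
    · rintro ⟨h1, h2⟩
      refine ⟨?_, ?_⟩
      · rw [h1] at ipY
        exact ipY.eq_of_zero.1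
      · rcases h2 with h2 | h2
        · left
          rw [h2, gn]
        · right
          rw [h2, gn1]
  have hfur : ∀ c, c ∉ Y ∪ (P ∪ Q) → G.Adj c y → G.Adj c a2 → G.Adj c a3 →
      ∃ i, 0 < i ∧ i < N ∧ G.Adj c (g i) := by
    intro c h1 h2 h3 h4
    by_contra hc
    push Not at hc
    refine one hEVN noh nop cy ipY dis adj h1 h2 h3 h4 ?_
    intro w hw hcw
    obtain ⟨i, hi, rfl⟩ := hPQ' w hw
    by_cases h5 : i = 0
    · left
      rw [h5, g0]
    · by_cases h6 : i = N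
      · right
        rw [h6, gN]
      · exact absurd hcw (hc i (by omega) (by omega))
  have hgap : ∀ c, c ∉ Y ∪ (P ∪ Q) → (∃ i, 0 < i ∧ i < N ∧ G.Adj c (g i)) → ∀ i j, i < j →
      j ≤ N → G.Adj c (g i) → G.Adj c (g j) → (∀ k, i < k → k < j → ¬ G.Adj c (g k)) →
      j = i + 1 ∨ Even (j - i) := by
    intro c h1 ⟨i0, h2, h3, h4⟩ i j hij hj hi' hj' hbt
    by_cases h5 : j = i + 1
    · exact Or.inl h5
    right
    have hne : ¬ (i = 0 ∧ j = N) := by
      rintro ⟨rfl, rfl⟩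
      exact hbt i0 h2 h3 h4
    have hsg := cyc_seg gi ga hij.le hj hne
    refine noh _ _ _ c _ hsg (by omega) ?_ hi' hj' ?_
    · rintro ⟨l, h6, h7, h8⟩
      exact h1 (Or.inr (h8 ▸ hPQ l (by omega)))
    · rintro w ⟨l, h6, h7, rfl⟩ hw
      by_cases h9 : l = i
      · left
        rw [h9]
      · by_cases h10 : l = j
        · right
          rw [h10]
        · exact absurd hw (hbt l (by omega) (by omega))
  have hs1 := hfur s hs cy_.1 c2.1 c3.1
  have ht1 := hfur t ht cy_.2 c2.2 c3.2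
  have hNo : Odd N := by
    obtain ⟨o, ho⟩ := cy.hn
    obtain ⟨o', ho'⟩ := cy.hm
    exact ⟨o + o' + 1, by omega⟩
  obtain ⟨i, j, hi0, hiN, hj0, hjN, hsi, htj, hb1, hb2, hodd⟩ := hLAB N
    (fun i => G.Adj s (g i)) (fun i => G.Adj t (g i)) hNo (by omega)
    (by rw [g0]; exact c2.1) (by rw [g0]; exact c2.2) (by rw [gN]; exact c3.1)
    (by rw [gN]; exact c3.2) hex (hgap s hs hs1) (hgap t ht ht1)
  rcases Nat.lt_trichotomy i j with h | h | h
  · exact core noh nah hst hnst hN cy.hn cy.hm gi ga hsg htg hyg0 cy_.1 cy_.2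
      (by rw [g0]; exact c2.1) (by rw [g0]; exact c2.2) (by rw [gN]; exact c3.1)
      (by rw [gN]; exact c3.2) hex hyg hi0 h hjN hsi htj hb1 hodd
  · rw [h] at hsi
    exact hex j hj0 hjN ⟨hsi, htj⟩
  · exact core noh nah hst.symm (fun h' => hnst h'.symm) hN cy.hn cy.hm gi ga htg hsg hyg0
      cy_.2 cy_.1
      (by rw [g0]; exact c2.2) (by rw [g0]; exact c2.1) (by rw [gN]; exact c3.2)
      (by rw [gN]; exact c3.1) (fun i h1 h2 h3 => hex i h1 h2 ⟨h3.2, h3.1⟩) hyg hj0 h hiN htj hsi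
      (fun i h1 h2 => ⟨(hb2 i h1 h2).2, (hb2 i h1 h2).1⟩) (by rw [add_comm]; exact hodd)


end Pool.Agent.H56.ER2
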