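import Pool.Agent.H98.ER2.SPV
import Pool.Agent.H67.ER2.HTR

/-!
# MP_816b90_co: row SPV with the corrected `T_HTR'` (proof of helper98)
-/

set_option autoImplicit false
set_option linter.unusedVariables false

namespace Pool.Agent.H56.ER2

open Pool.Agent.H48.ER Pool.Agent.H52.ER2 Pool.Agent.H66.ER2 Pool.Agent.H98.ER2

theorem pf_SPV2 (hHTR : Pool.Agent.H67.ER2.T_HTR') (hASD : T_ASD) (hSPN : T_SPN) (hSPE : T_SPE) : T_SPV := by
  intro V G l r n m a1 x b1 y a2 b2 a3 b3 v L R P Q hno hop h hv hx hy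
  have hs := hSPN V G l r n m a1 x b1 y a2 b2 a3 b3 v L R P Q hno hop h hv hx hy
  have hv' : v ∉ vS R L P Q := by rw [vS_flip]; exact hv
  obtain ⟨ka, Da, hA⟩ := mkA h hv hx hs
  obtain ⟨kb, Db, hB⟩ := mkA h.flip hv' hy hs
  have hvPQ : v ∉ P ∪ Q := fun e => e.elim (fun e => hv (Or.inl (Or.inr e))) (fun e => hv (Or.inr e))
  have hab2 : a2 ≠ b2 := by
    intro e
    have hn := h.oP
    obtain ⟨g, hg, g0, gn, -⟩ := Pool.Agent.H66.ER2.IP.pf h.ipP
    have := hg.inj 0 n (Nat.zero_le _) le_rfl (by rw [g0, gn, e])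
    have := hn.pos
    omega
  have hab3 : a3 ≠ b3 := by
    intro e
    have hn := h.oQ
    obtain ⟨g, hg, g0, gn, -⟩ := Pool.Agent.H66.ER2.IP.pf h.ipQ
    have := hg.inj 0 m (Nat.zero_le _) le_rfl (by rw [g0, gn, e])
    have := hn.pos
    omega
  have hPQ : ∀ a ∈ P, ∀ b ∈ Q, a ≠ b := fun a ha b hb hab =>
    Set.disjoint_left.1 h.dPQ ha (hab ▸ hb)
  have hH : (∃ g, g ∈ P ∪ Q ∧ ∀ w ∈ P ∪ Q, G.Adj v w ↔ w = g) ∨
      (∃ (i j : ℕ) (g g' : V) (R1 R2 : Set V), HTwo G n m i j v a2 b2 a3 b3 g g' R1 R2 P Q) ∨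
      ∃ g g', HFar G v a2 a3 g g' P Q := by
    rcases hHTR V G n m v a2 b2 a3 b3 P Q h.cyc hvPQ hs with e | e | ⟨g, hg1, hg2, -⟩ | e | e
    · exact Or.inl ⟨a2, Or.inl h.a2_mem, e⟩
    · exact Or.inl ⟨a3, Or.inr h.a3_mem, e⟩
    · exact Or.inl ⟨g, hg1, hg2⟩
    · exact Or.inr (Or.inl e)
    · exact Or.inr (Or.inr e)
  rcases hH with ⟨g, hg1, hg2⟩ | ⟨i, j, g, g', R1, R2, hT⟩ | ⟨g, g', hF⟩
  · exfalso
    rcases oneSide hASD hno hA h.a2_mem h.a3_mem hg1 hg2 with e1 | e1 <;>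
      rcases oneSide hASD hno hB h.b2_mem h.b3_mem hg1 hg2 with e2 | e2
    · exact hab2 (e1.symm.trans e2)
    · exact hPQ _ h.a2_mem _ h.b3_mem (e1.symm.trans e2)
    · exact hPQ _ h.b2_mem _ h.a3_mem (e2.symm.trans e1)
    · exact hab3 (e1.symm.trans e2)
  · exact Or.inr (hSPE V G l r n m i j a1 x b1 y a2 b2 a3 b3 v g g' L R P Q R1 R2 hno hop h hv
      hx hy hT)
  · obtain ⟨i, j, R1, R2, h1, h2, h3, h4, h5, h6, h7, h8⟩ := hF
    have hgg : g ≠ g' := fun e => Set.disjoint_left.1 h5 h1.right_mem (e ▸ h2.right_mem)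
    have hg : g ∈ P ∪ Q := h3 h1.right_mem
    have hg' : g' ∈ P ∪ Q := h4 h2.right_mem
    have ag : G.Adj v g := (h7 g h1.right_mem).2 rfl
    have ag' : G.Adj v g' := (h8 g' h2.right_mem).2 rfl
    rcases hASD V G ka n m a1 v a2 b2 a3 b3 Da P Q hno hA with e | e | e | e
    · exact absurd (((e g hg).1 ag).trans ((e g' hg').1 ag').symm) hgg
    · exact absurd (((e g hg).1 ag).trans ((e g' hg').1 ag').symm) hgg
    · rcases hASD V G kb n m b1 v b2 a2 b3 a3 Db P Q hno hB with f | f | f | f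
      · exact absurd (((f g hg).1 ag).trans ((f g' hg').1 ag').symm) hgg
      · exact absurd (((f g hg).1 ag).trans ((f g' hg').1 ag').symm) hgg
      · exact Or.inl ⟨e, f⟩
      · obtain ⟨i', j', g1, g2, S1, S2, f⟩ := f
        obtain ⟨c1, c2⟩ := hSPE V G r l n m i' j' b1 y a1 x b2 a2 b3 a3 v g1 g2 R L P Q S1 S2
          hno hop h.flip hv' hy hx f
        refine Or.inr ⟨c1, ?_⟩
        rcases c2 with c | c | c | c
        · exact Or.inr (Or.inr (Or.inl c))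
        · exact Or.inr (Or.inr (Or.inr c))
        · exact Or.inl c
        · exact Or.inr (Or.inl c)
    · obtain ⟨i', j', g1, g2, S1, S2, f⟩ := e
      exact Or.inr (hSPE V G l r n m i' j' a1 x b1 y a2 b2 a3 b3 v g1 g2 L R P Q S1 S2 hno hop h
        hv hx hy f)


end Pool.Agent.H56.ER2
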