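import Pool.Agent.H56.ER2.Lib
import Pool.Agent.H66.ER2.Targets
import Pool.Agent.H48.ER2.Top

/-!
# MP_816b90_co: one vertex with an outer path (V1)
-/

set_option autoImplicit false

namespace Pool.Agent.H56.ER2

open Pool.Agent.H48.ER Pool.Agent.H52.ER2 Pool.Agent.H66.ER2

/-- conversion of the statement on outgoing paths -/
theorem oge_conv (h : T_OGE) : Pool.Agent.H66.ER2.T_OGE :=
  fun V G v n z m a b R h1 h2 h3 h4 h5 => h V G v n z ⟨h1, h2, h3, h4⟩ m a b R h5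

theorem pf_V1 (hOIP : T_OIP) (hEPX : T_EPX) (hGOOD : T_GOOD) : Pool.Agent.H48.ER2.T_V1 := by
  intro V _ G v hG hc ht hF hO
  -- a shortest outer path
  have hex : ∃ n z, Ou G v n z := by
    unfold NOut at hO
    push Not at hO
    obtain ⟨n, x, y, R, h⟩ := hO
    obtain ⟨z, hz, _⟩ := (hOIP V G v n).1 x y R h
    exact ⟨n, z, hz⟩
  classical
  have hex' : ∃ n, ∃ z, Ou G v n z := hex
  obtain ⟨z, hz⟩ := Nat.find_spec hex'
  have hso : SO G v (Nat.find hex') z := ⟨hz, fun n' z' h => Nat.find_min' hex' ⟨z', h⟩⟩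
  obtain ⟨a, ha, b, hb, hab⟩ := hEPX V G v _ z ⟨hG, hc, hF, hso⟩ ht
  exact ⟨a, b, ha.1, hb.1, hGOOD V G v _ z a b hG hc hF hso ha hb hab⟩

end Pool.Agent.H56.ER2
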