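import Pool.Agent.H48.ER.All
import Pool.Agent.H56.ER2.INH
import Pool.Agent.H56.ER2.V1
import Pool.Agent.H1.ER2.GOP
import Pool.Agent.H1.ER2.GSD
import Pool.Agent.H1.ER2.IA3
import Pool.Agent.H1.ER2.PPC
import Pool.Agent.H13.ER2.AH
import Pool.Agent.H2.ER2.GFL
import Pool.Agent.H20.ER2.ASI
import Pool.Agent.H20.ER2.IB1
import Pool.Agent.H21.ER2.CNI
import Pool.Agent.H24.ER2.GSP
import Pool.Agent.H24.ER2.REV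
import Pool.Agent.H25.ER2.AST
import Pool.Agent.H25.ER2.IC1
import Pool.Agent.H26.ER2.QPR
import Pool.Agent.H3.ER2.RVZ
import Pool.Agent.H30.ER2.IB2
import Pool.Agent.H30.ER2.SGC
import Pool.Agent.H33.ER2.CK4
import Pool.Agent.H33.ER2.FCT
import Pool.Agent.H33.ER2.INA
import Pool.Agent.H33.ER2.LTB
import Pool.Agent.H33.ER2.OIP
import Pool.Agent.H33.ER2.PAR
import Pool.Agent.H33.ER2.SPN
import Pool.Agent.H36.ER2.EXC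
import Pool.Agent.H36.ER2.IC2
import Pool.Agent.H36.ER2.LSN
import Pool.Agent.H36.ER2.RES
import Pool.Agent.H36.ER2.SGW
import Pool.Agent.H38.ER2.QPI
import Pool.Agent.H38.ER2.SPE
import Pool.Agent.H4.ER2.CC
import Pool.Agent.H4.ER2.CNU
import Pool.Agent.H41.ER2.GC3
import Pool.Agent.H42.ER2.G3A
import Pool.Agent.H49.ER2.GMJ
import Pool.Agent.H49.ER2.IC4
import Pool.Agent.H49.ER2.IDX
import Pool.Agent.H52.ER2.CNA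
import Pool.Agent.H54.ER2.GOOD
import Pool.Agent.H58.ER2.FAB
import Pool.Agent.H58.ER2.GC1
import Pool.Agent.H6.ER2.MPI
import Pool.Agent.H61.ER2.AS5
import Pool.Agent.H63.ER2.PPX
import Pool.Agent.H64.ER2.SG0
import Pool.Agent.H68.ER2.IA1
import Pool.Agent.H68.ER2.RH2
import Pool.Agent.H7.ER2.SGA
import Pool.Agent.H72.ER2.MNP
import Pool.Agent.H72.ER2.SGH
import Pool.Agent.H75.ER2.AS4
import Pool.Agent.H75.ER2.ASL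
import Pool.Agent.H78.ER2.ASM
import Pool.Agent.H78.ER2.GDP
import Pool.Agent.H78.ER2.MNA
import Pool.Agent.H79.ER2.GC2
import Pool.Agent.H80.ER2.IA2
import Pool.Agent.H81.ER2.II1
import Pool.Agent.H81.ER2.II3
import Pool.Agent.H81.ER2.OUE
import Pool.Agent.H93.ER2.GNC
import Pool.Agent.H93.ER2.GNR
import Pool.Agent.H93.ER2.IC3
import Pool.Agent.H94.ER2.LAB
import Pool.Agent.H94.ER2.WSP
import Pool.Agent.H95.ER2.OGE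
import Pool.Agent.H95.ER2.PRD
import Pool.Agent.H98.ER2.ASZ
import Pool.Agent.H99.ER2.EPX
import Pool.Agent.H99.ER2.MNH
import Pool.Agent.H99.ER2.TWO
import Pool.Agent.H11.ER2.PPR
import Pool.Agent.H67.ER2.HTR
import Pool.Agent.H67.ER2.VPR
import Pool.Agent.H56.ER2.SPV2
import Pool.Agent.H56.ER2.MPC2

/-!
# MP_816b90_co: closed theorems (MEET, outgoing paths, even pairs, GOOD, INH, V1)
-/

set_option autoImplicit false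

namespace Pool.Agent.H56.ER2

open Pool.Agent.H48.ER Pool.Agent.H52.ER2 Pool.Agent.H66.ER2 Pool.Agent.H48.ER2

theorem c_CNI : T_CNI :=
  Pool.Agent.H21.ER2.pf_CNI
theorem c_CNU : T_CNU :=
  Pool.Agent.H4.ER2.pf_CNU
theorem c_WSP : T_WSP :=
  Pool.Agent.H94.ER2.pf_WSP
theorem c_PPC : T_PPC :=
  Pool.Agent.H1.ER2.pf_PPC c_CON
theorem c_PPX : T_PPX :=
  Pool.Agent.H63.ER2.pf_PPX c_TRI c_PYR
theorem c_PPR : T_PPR :=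
  Pool.Agent.H11.ER2.pf_PPR c_PPC c_PPX
theorem c_OUE : T_OUE :=
  Pool.Agent.H81.ER2.pf_OUE
theorem c_FAB : T_FAB :=
  Pool.Agent.H58.ER2.pf_FAB c_OUE
theorem c_REV : T_REV :=
  Pool.Agent.H24.ER2.pf_REV
theorem c_FCT : T_FCT :=
  Pool.Agent.H33.ER2.pf_FCT c_OUE c_FAB
theorem c_RVZ : T_RVZ :=
  Pool.Agent.H3.ER2.pf_RVZ c_REV
theorem c_QPI : T_QPI :=
  Pool.Agent.H38.ER2.pf_QPI
theorem c_QPR : T_QPR :=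
  Pool.Agent.H26.ER2.pf_QPR c_RVZ
theorem c_SGW : T_SGW :=
  Pool.Agent.H36.ER2.pf_SGW c_WSP c_HOL
theorem c_SG0 : T_SG0 :=
  Pool.Agent.H64.ER2.pf_SG0 c_HOL
theorem c_SGH : T_SGH :=
  Pool.Agent.H72.ER2.pf_SGH
theorem c_SGA : T_SGA :=
  Pool.Agent.H7.ER2.pf_SGA c_PPR c_CNI c_CNU
theorem c_SGB : T_SGB :=
  Pool.Agent.H7.ER2.pf_SGB c_PPR c_CNI c_CNU
theorem c_SGC : T_SGC :=
  Pool.Agent.H30.ER2.pf_SGC c_RVZ c_QPR c_FCT c_SGB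
theorem c_IDX : T_IDX :=
  Pool.Agent.H49.ER2.pf_IDX
theorem c_OGE : Pool.Agent.H56.ER2.T_OGE :=
  Pool.Agent.H95.ER2.pf_OGE c_FCT c_QPI c_SGW c_SG0 c_SGH c_SGA c_SGB c_SGC c_IDX
theorem c_ASZ : T_ASZ :=
  Pool.Agent.H98.ER2.pf_ASZ
theorem c_AST : T_AST :=
  Pool.Agent.H25.ER2.pf_AST
theorem c_ASI : T_ASI :=
  Pool.Agent.H20.ER2.pf_ASI c_HOL
theorem c_PAR : T_PAR :=
  Pool.Agent.H33.ER2.pf_PAR
theorem c_RH2 : T_RH2 :=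
  Pool.Agent.H68.ER2.pf_RH2 c_PAR
theorem c_AH : T_AH :=
  Pool.Agent.H13.ER2.pf_AH
theorem c_II1 : T_II1 :=
  Pool.Agent.H81.ER2.pf_II1 c_PPR c_CNI c_AH
theorem c_IA1 : T_IA1 :=
  Pool.Agent.H68.ER2.pf_IA1 c_PPR c_CNI c_CNU
theorem c_IA2 : T_IA2 :=
  Pool.Agent.H80.ER2.pf_IA2 c_PPR c_CNI
theorem c_IA3 : T_IA3 :=
  Pool.Agent.H1.ER2.pf_IA3 c_IA1 c_IA2
theorem c_IB1 : T_IB1 :=
  Pool.Agent.H20.ER2.pf_IB1 c_PPR c_CNI c_CNU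
theorem c_IB2 : T_IB2 :=
  Pool.Agent.H30.ER2.pf_IB2 c_IB1
theorem c_LSN : T_LSN :=
  Pool.Agent.H36.ER2.pf_LSN
theorem c_PRD : T_PRD :=
  Pool.Agent.H95.ER2.pf_PRD
theorem c_TWO : T_TWO :=
  Pool.Agent.H99.ER2.pf_TWO c_EVN c_LSN c_PRD
theorem c_II3 : T_II3 :=
  Pool.Agent.H81.ER2.pf_II3 c_PPR c_CNI c_CNU c_AH c_II1 c_TWO
theorem c_ASM : T_ASM :=
  Pool.Agent.H78.ER2.pf_ASM c_FCT c_OGE c_ASZ c_AST c_ASI c_AH c_II1 c_II3 c_RH2 c_IA3 c_IB2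
theorem c_IC1 : T_IC1 :=
  Pool.Agent.H25.ER2.pf_IC1 c_FCT c_OGE
theorem c_IC2 : T_IC2 :=
  Pool.Agent.H36.ER2.pf_IC2 c_FST
theorem c_IC3 : T_IC3 :=
  Pool.Agent.H93.ER2.pf_IC3 c_FST
theorem c_LTB : T_LTB :=
  Pool.Agent.H33.ER2.pf_LTB c_RVZ
theorem c_IC4 : T_IC4 :=
  Pool.Agent.H49.ER2.pf_IC4
theorem c_EPX : T_EPX :=
  Pool.Agent.H99.ER2.pf_EPX c_FCT c_RVZ c_ASM c_IC1 c_IC2 c_IC3 c_LTB c_IC4
theorem c_OGE66 : Pool.Agent.H66.ER2.T_OGE :=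
  Pool.Agent.H56.ER2.oge_conv c_OGE
theorem c_LAB : T_LAB :=
  Pool.Agent.H94.ER2.pf_LAB
theorem c_HTR : Pool.Agent.H67.ER2.T_HTR' :=
  Pool.Agent.H67.ER2.pf_HTR'
theorem c_ASD : T_ASD :=
  Pool.Agent.H67.ER2.pf_ASD c_PYR
theorem c_VPR : T_VPR :=
  Pool.Agent.H67.ER2.pf_VPR c_PYR
theorem c_AS4 : T_AS4 :=
  Pool.Agent.H75.ER2.pf_AS4 c_EVN c_VPR
theorem c_AS5 : T_AS5 :=
  Pool.Agent.H61.ER2.pf_AS5 c_PYR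
theorem c_ASL : T_ASL :=
  Pool.Agent.H75.ER2.pf_ASL c_ASD c_AS4 c_AS5
theorem c_SPN : T_SPN :=
  Pool.Agent.H33.ER2.pf_SPN c_FST c_EVN
theorem c_SPE : T_SPE :=
  Pool.Agent.H38.ER2.pf_SPE c_EVN c_HOL
theorem c_SPV : T_SPV :=
  Pool.Agent.H56.ER2.pf_SPV2 c_HTR c_ASD c_SPN c_SPE
theorem c_GMJ : T_GMJ :=
  Pool.Agent.H49.ER2.pf_GMJ c_SPV
theorem c_GFL : T_GFL :=
  Pool.Agent.H2.ER2.pf_GFL c_REV
theorem c_GOP : T_GOP :=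
  Pool.Agent.H1.ER2.pf_GOP c_OUE c_GMJ
theorem c_GDP : T_GDP :=
  Pool.Agent.H78.ER2.pf_GDP c_CON c_EVN c_GMJ
theorem c_GSD : T_GSD :=
  Pool.Agent.H1.ER2.pf_GSD c_ASL c_GMJ c_GFL c_GDP c_GOP
theorem c_GC1 : T_GC1 :=
  Pool.Agent.H58.ER2.pf_GC1 c_OUE c_GFL c_GSD
theorem c_GC2 : T_GC2 :=
  Pool.Agent.H79.ER2.pf_GC2 c_EVN c_ASD c_OUE c_GMJ c_GFL c_GDP c_GSD
theorem c_G3A : T_G3A :=
  Pool.Agent.H42.ER2.pf_G3A c_HOL c_EVN c_OUE c_FAB c_GMJ c_OGE66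
theorem c_GC3 : T_GC3 :=
  Pool.Agent.H41.ER2.pf_GC3 c_CON c_EVN c_ASL c_GMJ c_OUE c_G3A
theorem c_GNR : T_GNR :=
  Pool.Agent.H93.ER2.pf_GNR c_FAB c_OGE66
theorem c_GNC : T_GNC :=
  Pool.Agent.H93.ER2.pf_GNC c_FAB c_OGE66
theorem c_GSP : T_GSP :=
  Pool.Agent.H24.ER2.pf_GSP c_SPI c_SPC c_W1
theorem c_CNA : T_CNA :=
  Pool.Agent.H52.ER2.pf_CNA
theorem c_CC : T_CC :=
  Pool.Agent.H4.ER2.pf_CC c_CNH c_CNA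
theorem c_GOOD : T_GOOD :=
  Pool.Agent.H54.ER2.pf_GOOD c_CNH c_CC c_FAB c_GSP c_GFL c_GC1 c_GC2 c_GC3 c_GNR c_GNC
theorem c_MNH : T_MNH :=
  Pool.Agent.H99.ER2.pf_MNH c_ROT c_LAB
theorem c_MNA : T_MNA :=
  Pool.Agent.H78.ER2.pf_MNA c_ROT
theorem c_MPC : T_MPC :=
  Pool.Agent.H56.ER2.pf_MPC2 c_LAB c_EVN
theorem c_MPI : T_MPI :=
  Pool.Agent.H6.ER2.pf_MPI c_SPV
theorem c_MNP : T_MNP :=
  Pool.Agent.H72.ER2.pf_MNP c_MPC c_MPI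
theorem c_MEET : T_MEET :=
  Pool.Agent.H33.ER2.pf_MEET c_MNH c_MNA c_MNP
theorem c_INH : T_INH :=
  Pool.Agent.H56.ER2.pf_INH c_MEET c_EVN c_PPR c_RH2 c_TWO c_CNI
theorem c_OIP : T_OIP :=
  Pool.Agent.H33.ER2.pf_OIP
theorem c_V1 : T_V1 :=
  Pool.Agent.H56.ER2.pf_V1 c_OIP c_EPX c_GOOD

end Pool.Agent.H56.ER2
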