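import Pool.Agent.H66.ER2.Defs
import Pool.Agent.H48.ER.Targets

/-!
# MP_816b90_co: outgoing paths are even, the order on `sA`, existence of an even pair. Targets.
-/

set_option autoImplicit false

namespace Pool.Agent.H56.ER2

open Pool.Agent.H48.ER Pool.Agent.H52.ER2 Pool.Agent.H66.ER2

variable {V : Type}

/-- the part from `i` to `j` of a path in function form -/
def seg (g : ℕ → V) (i j : ℕ) : Set V := {w | ∃ k, i ≤ k ∧ k ≤ j ∧ g k = w}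

/-- the reversed path -/
def rz (n : ℕ) (z : ℕ → V) : ℕ → V := fun i => z (n - i)

/-- `u` is in the interior of the outer path or has a neighbour there -/
def NW (G : SimpleGraph V) (n : ℕ) (z : ℕ → V) (u : V) : Prop :=
  u ∈ Wz n z ∨ ∃ w ∈ Wz n z, G.Adj u w

/-- the setting: `v` is not a corner, `z` is a shortest outer path -/
structure Stg (G : SimpleGraph V) (v : V) (n : ℕ) (z : ℕ → V) : Prop where
  cls : Cls G
  nco : NCo G v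
  f1 : F1 G v
  so : SO G v n z

/-- first facts on the shortest outer path -/
structure Fab (G : SimpleGraph V) (v : V) (n : ℕ) (z : ℕ → V) : Prop where
  ev : Even n
  four : 4 ≤ n
  z0 : z 0 ∈ sA G v n z
  zn : z n ∈ sB G v n z
  clA : ∀ a ∈ sA G v n z, ∀ c ∈ sA G v n z, a ≠ c → G.Adj a c
  clB : ∀ a ∈ sB G v n z, ∀ c ∈ sB G v n z, a ≠ c → G.Adj a c
  ab : ∀ a ∈ sA G v n z, ∀ b ∈ sB G v n z, a ≠ b ∧ ¬ G.Adj a b
  ty : ∀ c, G.Adj v c → Ty0 G n z c ∨ c ∈ sA G v n z ∨ c ∈ sB G v n z ∨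
    ((∀ a ∈ sA G v n z, G.Adj c a) ∧ ∀ b ∈ sB G v n z, G.Adj c b)
  vw : ∀ w ∈ Wz n z, w ≠ v ∧ ¬ G.Adj v w

/-! ### P. Paths, connected sets -/

/-- (CNI) the vertex set of a path is connected. -/
def T_CNI : Prop := ∀ (V : Type) (G : SimpleGraph V) (n : ℕ) (x y : V) (R : Set V),
  IP G n x y R → Cn G R

/-- (CNU) the union of two connected sets. -/
def T_CNU : Prop := ∀ (V : Type) (G : SimpleGraph V) (D E : Set V), Cn G D → Cn G E →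
  (∃ u ∈ D, ∃ w ∈ E, u = w ∨ G.Adj u w) → Cn G (D ∪ E)

/-- (WSP) shortest part of a path between the neighbours of `x` and of `y`. -/
def T_WSP : Prop := ∀ (V : Type) (G : SimpleGraph V) (n : ℕ) (u w x y : V) (R : Set V),
  IP G n u w R → (∃ w ∈ R, G.Adj x w) → (∃ w ∈ R, G.Adj y w) →
  ∃ (l : ℕ) (s t : V) (T : Set V), IP G l s t T ∧ T ⊆ R ∧ (∀ w ∈ T, G.Adj x w ↔ w = s) ∧
    ∀ w ∈ T, G.Adj y w ↔ w = t

/-- (PPC) shortest connection in a connected set. -/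
def T_PPC : Prop := ∀ (V : Type) (G : SimpleGraph V) (v : V) (D Z : Set V), Cn G D →
  (∃ w ∈ D, G.Adj v w) → (∃ w ∈ D, w ∈ Z) →
  ∃ (k : ℕ) (d y : V) (T : Set V), IP G k d y T ∧ T ⊆ D ∧ (∀ w ∈ T, G.Adj v w ↔ w = d) ∧
    ∀ w ∈ T, w ∈ Z ↔ w = y

/-- (PPX) a hat with a path to the hole is a corner of a prism. The hole consists of the edge
`c c'` and of the path `R`. -/
def T_PPX : Prop := ∀ (V : Type) (G : SimpleGraph V) (v c c' s t d y : V) (r k : ℕ)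
  (R T : Set V), NOH G → IP G r s t R → 1 ≤ r → c ∉ R → c' ∉ R → G.Adj c c' →
  (∀ w ∈ R, G.Adj c w ↔ w = s) → (∀ w ∈ R, G.Adj c' w ↔ w = t) → v ∉ R → G.Adj v c →
  G.Adj v c' → (∀ w ∈ R, ¬ G.Adj v w) → IP G k d y T → Disjoint T R → v ∉ T → c ∉ T → c' ∉ T →
  (∀ w ∈ T, ¬ G.Adj w c ∧ ¬ G.Adj w c') → (∀ w ∈ T, G.Adj v w ↔ w = d) →
  (∀ w ∈ T, (∃ u ∈ R, G.Adj w u) ↔ w = y) →
  ∃ (a b : Fin 3 → V) (n : Fin 3 → ℕ) (P : Fin 3 → Set V), Prism G a b n P ∧ a 0 = v ∧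
    a 1 = c ∧ a 2 = c' ∧ P 0 = insert v T ∧ P 1 ∪ P 2 = insert c (insert c' R)

/-- (PPR) a hat with a connection to the hole is a corner of a prism. -/
def T_PPR : Prop := ∀ (V : Type) (G : SimpleGraph V) (v c c' s t : V) (r : ℕ)
  (R D : Set V), NOH G → IP G r s t R → 1 ≤ r → c ∉ R → c' ∉ R → G.Adj c c' →
  (∀ w ∈ R, G.Adj c w ↔ w = s) → (∀ w ∈ R, G.Adj c' w ↔ w = t) → v ∉ R → G.Adj v c →
  G.Adj v c' → (∀ w ∈ R, ¬ G.Adj v w) → Cn G D → v ∉ D → c ∉ D → c' ∉ D →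
  (∀ w ∈ D, ¬ G.Adj w c ∧ ¬ G.Adj w c') → (∃ w ∈ D, G.Adj v w) →
  (∃ w ∈ D, w ∈ R ∨ ∃ u ∈ R, G.Adj w u) →
  ∃ (a b : Fin 3 → V) (n : Fin 3 → ℕ) (P : Fin 3 → Set V), Prism G a b n P ∧ a 0 = v ∧
    a 1 = c ∧ a 2 = c' ∧ P 0 ⊆ insert v D ∧ P 1 ∪ P 2 = insert c (insert c' R)

/-! ### I. Outgoing paths are even -/

/-- (FCT) first facts. -/
def T_FCT : Prop := ∀ (V : Type) (G : SimpleGraph V) (v : V) (n : ℕ) (z : ℕ → V),
  Stg G v n z → Fab G v n z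

/-- (RVZ) reversal. -/
def T_RVZ : Prop := ∀ (V : Type) (G : SimpleGraph V) (v : V) (n : ℕ) (z : ℕ → V),
  Stg G v n z → Stg G v n (rz n z) ∧ sA G v n (rz n z) = sB G v n z ∧
    sB G v n (rz n z) = sA G v n z ∧ Wz n (rz n z) = Wz n z

/-- an outgoing path of length at least three in function form -/
structure Qp (G : SimpleGraph V) (v : V) (n : ℕ) (z : ℕ → V) (m : ℕ) (g : ℕ → V) : Prop where
  pf : PF G m g
  inA : g 0 ∈ sA G v n z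
  inB : g m ∈ sB G v n z
  three : 3 ≤ m
  nv : ∀ i, i ≤ m → g i ≠ v
  ty : ∀ i, 0 < i → i < m → G.Adj v (g i) → ¬ NW G n z (g i)

/-- (QPI) outgoing paths in function form. -/
def T_QPI : Prop := ∀ (V : Type) (G : SimpleGraph V) (v : V) (n : ℕ) (z : ℕ → V), Stg G v n z →
  Fab G v n z → ∀ (m : ℕ) (a b : V) (R : Set V), Og G v n z m a b R → Odd m →
  ∃ g : ℕ → V, Qp G v n z m g

/-- (QPR) reversal of the outgoing path. -/
def T_QPR : Prop := ∀ (V : Type) (G : SimpleGraph V) (v : V) (n : ℕ) (z : ℕ → V) (m : ℕ)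
  (g : ℕ → V), Stg G v n z → Qp G v n z m g → Qp G v n (rz n z) m (rz m g)

/-- the segment from `i` to `k` of the path `g` whose interior does not see the outer path, and a
part `T` of the outer path which closes it to a hole -/
structure Sgm (G : SimpleGraph V) (n : ℕ) (z g : ℕ → V) (i k l : ℕ) (s t : V) (T : Set V) :
    Prop where
  ik : i + 2 ≤ k
  ip : IP G l s t T
  sub : T ⊆ Wz n z
  ls : ∀ w ∈ T, G.Adj (g i) w ↔ w = s
  rt : ∀ w ∈ T, G.Adj (g k) w ↔ w = t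
  no : ∀ j, i < j → j < k → ∀ w ∈ Wz n z, ¬ G.Adj (g j) w
  out : ∀ j, i ≤ j → j ≤ k → g j ∉ Wz n z
  ev : Even (k - i + l)

/-- (SGW) closing a segment. -/
def T_SGW : Prop := ∀ (V : Type) (G : SimpleGraph V) (v : V) (n : ℕ) (z : ℕ → V) (m : ℕ)
  (g : ℕ → V) (i k : ℕ), Stg G v n z → PF G m g → i + 2 ≤ k → k ≤ m → NW G n z (g i) →
  NW G n z (g k) → (∀ j, i < j → j < k → ¬ NW G n z (g j)) →
  ∃ (l : ℕ) (s t : V) (T : Set V), Sgm G n z g i k l s t T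

/-- (SG0) if no interior vertex sees the outer path. -/
def T_SG0 : Prop := ∀ (V : Type) (G : SimpleGraph V) (v : V) (n : ℕ) (z : ℕ → V) (m : ℕ)
  (g : ℕ → V), Stg G v n z → Fab G v n z → Qp G v n z m g →
  (∀ j, 0 < j → j < m → ¬ NW G n z (g j)) → Even m

/-- (SGH) the first and the last neighbour of `v` in the segment are not adjacent. -/
def T_SGH : Prop := ∀ (V : Type) (G : SimpleGraph V) (v : V) (n : ℕ) (z : ℕ → V) (m : ℕ)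
  (g : ℕ → V) (i k l : ℕ) (s t : V) (T : Set V) (c e : ℕ), Stg G v n z → Fab G v n z →
  Qp G v n z m g → Sgm G n z g i k l s t T → k ≤ m → i ≤ c → c + 2 ≤ e → e ≤ k →
  G.Adj v (g c) → G.Adj v (g e) → (∀ j, i ≤ j → j < c → ¬ G.Adj v (g j)) →
  (∀ j, e < j → j ≤ k → ¬ G.Adj v (g j)) → Even (e - c)

/-- (SGA) the first and the last neighbour of `v` in the segment are adjacent, the segment does
not contain the ends of the path. -/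
def T_SGA : Prop := ∀ (V : Type) (G : SimpleGraph V) (v : V) (n : ℕ) (z : ℕ → V) (m : ℕ)
  (g : ℕ → V) (i k l : ℕ) (s t : V) (T : Set V) (c : ℕ), Stg G v n z → Fab G v n z →
  Qp G v n z m g → Sgm G n z g i k l s t T → 0 < i → k < m → i < c → c + 1 < k →
  G.Adj v (g c) → G.Adj v (g (c + 1)) → (∀ j, i ≤ j → j < c → ¬ G.Adj v (g j)) →
  (∀ j, c + 1 < j → j ≤ k → ¬ G.Adj v (g j)) → False

/-- (SGB) the same, the segment contains the first vertex of the path. -/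
def T_SGB : Prop := ∀ (V : Type) (G : SimpleGraph V) (v : V) (n : ℕ) (z : ℕ → V) (m : ℕ)
  (g : ℕ → V) (k l : ℕ) (s t : V) (T : Set V), Stg G v n z → Fab G v n z →
  Qp G v n z m g → Sgm G n z g 0 k l s t T → k < m → G.Adj v (g 1) →
  (∀ j, 1 < j → j ≤ k → ¬ G.Adj v (g j)) → False

/-- (SGC) the same, the segment contains the last vertex of the path. -/
def T_SGC : Prop := ∀ (V : Type) (G : SimpleGraph V) (v : V) (n : ℕ) (z : ℕ → V) (m : ℕ)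
  (g : ℕ → V) (i l : ℕ) (s t : V) (T : Set V), Stg G v n z → Fab G v n z →
  Qp G v n z m g → Sgm G n z g i m l s t T → 0 < i → G.Adj v (g (m - 1)) →
  (∀ j, i ≤ j → j < m - 1 → ¬ G.Adj v (g j)) → False

/-- (IDX) the induction over the segments (no graphs). -/
def T_IDX : Prop := ∀ (m : ℕ) (N w : ℕ → Prop), 1 ≤ m → w 0 → w m → N 0 → N m →
  (∀ i, 0 < i → i < m → w i → ¬ N i) →
  (∀ i j, i + 2 ≤ j → j ≤ m → N i → N j → (∀ k, i < k → k < j → ¬ N k) → Even (j - i)) →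
  (∀ i k c e, i < k → k ≤ m → w i → w k → (∀ j, i < j → j < k → ¬ w j) → i ≤ c → c ≤ e →
    e ≤ k → N c → N e → (∀ j, i ≤ j → j < c → ¬ N j) → (∀ j, e < j → j ≤ k → ¬ N j) →
    Even (e - c)) → Even m

/-- (OGE) outgoing paths are even. -/
def T_OGE : Prop := ∀ (V : Type) (G : SimpleGraph V) (v : V) (n : ℕ) (z : ℕ → V), Stg G v n z →
  ∀ (m : ℕ) (a b : V) (R : Set V), Og G v n z m a b R → Even m

/-! ### II. The order is asymmetric -/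

/-- `a` is below `a'` -/
def LtA (G : SimpleGraph V) (v : V) (n : ℕ) (z : ℕ → V) (b a a' : V) : Prop :=
  ∃ (m : ℕ) (R : Set V), Og G v n z m a' b R ∧ a ∈ sA G v n z ∧ a ∉ R ∧
    ∀ w ∈ R, G.Adj a w ↔ w = a'

/-- `b` is below `b'` -/
def LtB (G : SimpleGraph V) (v : V) (n : ℕ) (z : ℕ → V) (a b b' : V) : Prop :=
  ∃ (m : ℕ) (R : Set V), Og G v n z m a b' R ∧ b ∈ sB G v n z ∧ b ∉ R ∧
    ∀ w ∈ R, G.Adj b w ↔ w = b'

/-- two outgoing paths to the same vertex `b`, such that the first vertex of each has only one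
neighbour on the other one -/
structure As0 (G : SimpleGraph V) (v : V) (n : ℕ) (z : ℕ → V) (p q : ℕ) (y x : ℕ → V) :
    Prop where
  py : PF G p y
  px : PF G q x
  ay : y 0 ∈ sA G v n z
  ax : x 0 ∈ sA G v n z
  b : y p ∈ sB G v n z
  xy : x q = y p
  oAy : ∀ i, i ≤ p → y i ∈ sA G v n z → i = 0
  oBy : ∀ i, i ≤ p → y i ∈ sB G v n z → i = p
  oAx : ∀ i, i ≤ q → x i ∈ sA G v n z → i = 0
  oBx : ∀ i, i ≤ q → x i ∈ sB G v n z → i = q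
  ny : ∀ k, k ≤ q → x k ≠ y 0 ∧ (G.Adj (y 0) (x k) ↔ k = 0)
  nx : ∀ k, k ≤ p → y k ≠ x 0 ∧ (G.Adj (x 0) (y k) ↔ k = 0)

/-- further facts on the two paths, without reference to the place where they meet -/
structure As2 (G : SimpleGraph V) (v : V) (n : ℕ) (z : ℕ → V) (p q : ℕ) (y x : ℕ → V) :
    Prop extends As0 G v n z p q y x where
  ep : Even p
  eq : Even q
  p2 : 2 ≤ p
  q2 : 2 ≤ q
  vy : ∀ k, k ≤ p → y k ≠ v
  vx : ∀ k, k ≤ q → x k ≠ v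
  zy : ∀ k, k ≤ p → y k ≠ z 1
  zx : ∀ k, k ≤ q → x k ≠ z 1
  vzy : ∀ k, 1 ≤ k → k ≤ p → G.Adj v (y k) → ¬ G.Adj (z 1) (y k)
  vzx : ∀ k, 1 ≤ k → k ≤ q → G.Adj v (x k) → ¬ G.Adj (z 1) (x k)
  ty : ∀ k, 1 ≤ k → k < p → G.Adj v (y k) → Ty0 G n z (y k)
  tx : ∀ k, 1 ≤ k → k < q → G.Adj v (x k) → Ty0 G n z (x k)
  ey : ∀ e, 1 ≤ e → e ≤ p → G.Adj (z 1) (y e) → (∀ l, e < l → l ≤ p → ¬ G.Adj (z 1) (y l)) →
    Even e
  ex : ∀ e, 1 ≤ e → e ≤ q → G.Adj (z 1) (x e) → (∀ l, e < l → l ≤ q → ¬ G.Adj (z 1) (x l)) →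
    Even e

/-- the vertex `y i` is the first vertex of the first path (after `y 0`) which sees the second
path, `x j` and `x k` are its first and its last neighbour there -/
structure As1 (G : SimpleGraph V) (v : V) (n : ℕ) (z : ℕ → V) (p q : ℕ) (y x : ℕ → V)
    (i j k : ℕ) : Prop extends As2 G v n z p q y x where
  i1 : 1 ≤ i
  ip : i < p
  pre : ∀ e, 1 ≤ e → e < i → ∀ l, l ≤ q → ¬ G.Adj (y e) (x l)
  dis : ∀ e, e ≤ i → ∀ l, l ≤ q → y e ≠ x l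
  j1 : 1 ≤ j
  jk : j < k
  kq : k ≤ q
  cj : G.Adj (y i) (x j)
  ck : G.Adj (y i) (x k)
  lo : ∀ l, l < j → ¬ G.Adj (y i) (x l)
  hi : ∀ l, k < l → l ≤ q → ¬ G.Adj (y i) (x l)
  par : Even (i + j)
  odd : Odd (k - j)

/-- (ASZ) from the order relations to two paths. -/
def T_ASZ : Prop := ∀ (V : Type) (G : SimpleGraph V) (v : V) (n : ℕ) (z : ℕ → V) (b a a' : V),
  LtA G v n z b a a' → LtA G v n z b a' a →
  ∃ (p q : ℕ) (y x : ℕ → V), As0 G v n z p q y x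

/-- (AST) further facts. -/
def T_AST : Prop := ∀ (V : Type) (G : SimpleGraph V) (v : V) (n : ℕ) (z : ℕ → V) (p q : ℕ)
  (y x : ℕ → V), Stg G v n z → Fab G v n z →
  (∀ (m : ℕ) (a b : V) (R : Set V), Og G v n z m a b R → Even m) →
  As0 G v n z p q y x → As2 G v n z p q y x

/-- (ASI) the place where the paths meet. -/
def T_ASI : Prop := ∀ (V : Type) (G : SimpleGraph V) (v : V) (n : ℕ) (z : ℕ → V) (p q : ℕ)
  (y x : ℕ → V), Stg G v n z → Fab G v n z →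
  (∀ (m : ℕ) (a b : V) (R : Set V), Og G v n z m a b R → Even m) →
  As2 G v n z p q y x → ∃ i j k, As1 G v n z p q y x i j k

/-- (PAR) a parity lemma (no graphs): `N` must be even. -/
def T_PAR : Prop := ∀ (N : ℕ) (A B : ℕ → Prop), 2 ≤ N → A 0 → A N → B 0 → B N →
  (∀ i, 0 < i → i < N → ¬ (A i ∧ B i)) →
  (∀ i j, i + 2 ≤ j → j ≤ N → A i → A j → (∀ k, i < k → k < j → ¬ A k) → Even (j - i)) →
  (∀ i j, i + 2 ≤ j → j ≤ N → B i → B j → (∀ k, i < k → k < j → ¬ B k) → Even (j - i)) →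
  (∀ i j, 0 < i → i < j → j < N → (∀ k, i < k → k < j → ¬ A k ∧ ¬ B k) →
    (A i ∧ B j) ∨ (B i ∧ A j) → Even (j - i)) → Even N

/-- (RH2) two vertices which see the edge `c c'` of a hole. -/
def T_RH2 : Prop := ∀ (V : Type) (G : SimpleGraph V) (v w c c' s t : V) (r : ℕ) (R : Set V),
  NOH G → IP G r s t R → 1 ≤ r → c ∉ R → c' ∉ R → G.Adj c c' → (∀ u ∈ R, G.Adj c u ↔ u = s) →
  (∀ u ∈ R, G.Adj c' u ↔ u = t) → v ∉ R → w ∉ R → v ≠ w → ¬ G.Adj v w → G.Adj v c →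
  G.Adj v c' → G.Adj w c → G.Adj w c' → (∀ u ∈ R, ¬ (G.Adj v u ∧ G.Adj w u)) →
  (∃ u ∈ R, G.Adj v u) → (∃ u ∈ R, G.Adj w u) →
  (∀ u ∈ R, (G.Adj v u ↔ u = s) ∧ (G.Adj w u ↔ u = t)) ∨
    ∀ u ∈ R, (G.Adj v u ↔ u = t) ∧ (G.Adj w u ↔ u = s)

/-- (AH) the hole of the two paths. -/
def T_AH : Prop := ∀ (V : Type) (G : SimpleGraph V) (v : V) (n : ℕ) (z : ℕ → V) (p q : ℕ)
  (y x : ℕ → V) (i j k : ℕ), As1 G v n z p q y x i j k →
  IP G (i + j - 1) (y 1) (x 1) (seg y 1 i ∪ seg x 1 j) ∧ 1 ≤ i + j - 1 ∧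
    y 0 ∉ seg y 1 i ∪ seg x 1 j ∧ x 0 ∉ seg y 1 i ∪ seg x 1 j ∧ G.Adj (y 0) (x 0) ∧
    (∀ u ∈ seg y 1 i ∪ seg x 1 j, G.Adj (y 0) u ↔ u = y 1) ∧
    (∀ u ∈ seg y 1 i ∪ seg x 1 j, G.Adj (x 0) u ↔ u = x 1) ∧
    v ∉ seg y 1 i ∪ seg x 1 j ∧ z 1 ∉ seg y 1 i ∪ seg x 1 j

/-- (II1) `v` is not a hat. -/
def T_II1 : Prop := ∀ (V : Type) (G : SimpleGraph V) (v : V) (n : ℕ) (z : ℕ → V) (p q : ℕ)
  (y x : ℕ → V) (i j k : ℕ), Stg G v n z → Fab G v n z → As1 G v n z p q y x i j k →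
  ∃ u ∈ seg y 1 i ∪ seg x 1 j, G.Adj v u

/-- (IA1) first leap case, first step. -/
def T_IA1 : Prop := ∀ (V : Type) (G : SimpleGraph V) (v : V) (n : ℕ) (z : ℕ → V) (p q : ℕ)
  (y x : ℕ → V) (i j k : ℕ), Stg G v n z → Fab G v n z → As1 G v n z p q y x i j k →
  (∀ u ∈ seg y 1 i ∪ seg x 1 j, (G.Adj v u ↔ u = y 1) ∧ (G.Adj (z 1) u ↔ u = x 1)) →
  p = 2 ∧ i = 1

/-- (IA2) first leap case, second step. -/
def T_IA2 : Prop := ∀ (V : Type) (G : SimpleGraph V) (v : V) (n : ℕ) (z : ℕ → V) (q : ℕ)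
  (y x : ℕ → V) (j k : ℕ), Stg G v n z → Fab G v n z → As1 G v n z 2 q y x 1 j k →
  (∀ u ∈ seg y 1 1 ∪ seg x 1 j, (G.Adj v u ↔ u = y 1) ∧ (G.Adj (z 1) u ↔ u = x 1)) →
  ¬ j + 1 < q

/-- (IA3) first leap case. -/
def T_IA3 : Prop := ∀ (V : Type) (G : SimpleGraph V) (v : V) (n : ℕ) (z : ℕ → V) (p q : ℕ)
  (y x : ℕ → V) (i j k : ℕ), Stg G v n z → Fab G v n z → As1 G v n z p q y x i j k →
  ¬ ∀ u ∈ seg y 1 i ∪ seg x 1 j, (G.Adj v u ↔ u = y 1) ∧ (G.Adj (z 1) u ↔ u = x 1)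

/-- (IB1) second leap case, first step. -/
def T_IB1 : Prop := ∀ (V : Type) (G : SimpleGraph V) (v : V) (n : ℕ) (z : ℕ → V) (p q : ℕ)
  (y x : ℕ → V) (i j k : ℕ), Stg G v n z → Fab G v n z → As1 G v n z p q y x i j k →
  (∀ u ∈ seg y 1 i ∪ seg x 1 j, (G.Adj v u ↔ u = x 1) ∧ (G.Adj (z 1) u ↔ u = y 1)) → q = 2

/-- (IB2) second leap case. -/
def T_IB2 : Prop := ∀ (V : Type) (G : SimpleGraph V) (v : V) (n : ℕ) (z : ℕ → V) (p q : ℕ)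
  (y x : ℕ → V) (i j k : ℕ), Stg G v n z → Fab G v n z → As1 G v n z p q y x i j k →
  ¬ ∀ u ∈ seg y 1 i ∪ seg x 1 j, (G.Adj v u ↔ u = x 1) ∧ (G.Adj (z 1) u ↔ u = y 1)

/-- (LSN) the last neighbour on a path. -/
def T_LSN : Prop := ∀ (V : Type) (G : SimpleGraph V) (v a b : V) (n : ℕ) (P : Set V),
  IP G n a b P → (∃ w ∈ P, G.Adj v w) →
  ∃ (d : ℕ) (w : V) (L : Set V), IP G d w b L ∧ L ⊆ P ∧ (∀ u ∈ L, G.Adj v u ↔ u = w) ∧ w ∈ P ∧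
    (a ∈ L → w = a ∧ d = n ∧ ∀ u ∈ P, G.Adj v u → u = a)

/-- (PRD) the last neighbours on two rungs. -/
def T_PRD : Prop := ∀ (V : Type) (G : SimpleGraph V) (a b : Fin 3 → V) (n : Fin 3 → ℕ)
  (P : Fin 3 → Set V) (v : V) (i j : Fin 3) (d e : ℕ) (w u : V) (L M : Set V), NOH G →
  Prism G a b n P → i ≠ j → v ∉ ver P → IP G d w (b i) L → L ⊆ P i → IP G e u (b j) M →
  M ⊆ P j → (∀ r ∈ L, G.Adj v r ↔ r = w) → (∀ r ∈ M, G.Adj v r ↔ r = u) →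
  ¬ (a i ∈ L ∧ a j ∈ M) → Odd (d + e) ∨ (d = 0 ∧ e = 0)

/-- (TWO) a vertex which sees two corners `a 1`, `a 2` and something else. -/
def T_TWO : Prop := ∀ (V : Type) (G : SimpleGraph V) (a b : Fin 3 → V) (n : Fin 3 → ℕ)
  (P : Fin 3 → Set V) (v : V), Cls G → Prism G a b n P → v ∉ ver P → G.Adj v (a 1) →
  G.Adj v (a 2) → ¬ G.Adj v (a 0) → (∃ w, (w ∈ P 1 ∨ w ∈ P 2) ∧ w ≠ a 1 ∧ w ≠ a 2 ∧ G.Adj v w) →
  ∃ i j, i ≠ j ∧ G.Adj v (b i) ∧ G.Adj v (b j)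

/-- (II3) `z 1` is a hat. -/
def T_II3 : Prop := ∀ (V : Type) (G : SimpleGraph V) (v : V) (n : ℕ) (z : ℕ → V) (p q : ℕ)
  (y x : ℕ → V) (i j k : ℕ), Stg G v n z → Fab G v n z → Tame G v →
  As1 G v n z p q y x i j k → ∃ u ∈ seg y 1 i ∪ seg x 1 j, G.Adj (z 1) u

/-- (ASM) the order is asymmetric. -/
def T_ASM : Prop := ∀ (V : Type) (G : SimpleGraph V) (v : V) (n : ℕ) (z : ℕ → V) (b a a' : V),
  Stg G v n z → Tame G v → LtA G v n z b a a' → ¬ LtA G v n z b a' a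

/-! ### III. Stable pairs -/

/-- (IC1) a stable pair is an even pair. -/
def T_IC1 : Prop := ∀ (V : Type) (G : SimpleGraph V) (v : V) (n : ℕ) (z : ℕ → V) (a b : V),
  Stg G v n z → a ∈ sA G v n z → b ∈ sB G v n z → (∀ a', ¬ LtA G v n z b a a') →
  (∀ b', ¬ LtB G v n z a b b') → EvP G a b

/-- (IC2) comparison with a third vertex. -/
def T_IC2 : Prop := ∀ (V : Type) (G : SimpleGraph V) (v : V) (n : ℕ) (z : ℕ → V)
  (a a' c b : V), Stg G v n z → Fab G v n z → LtA G v n z b a a' → c ∈ sA G v n z → c ≠ a →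
  c ≠ a' → LtA G v n z b a c ∨ LtA G v n z b c a'

/-- (IC3) change of `b`. -/
def T_IC3 : Prop := ∀ (V : Type) (G : SimpleGraph V) (v : V) (n : ℕ) (z : ℕ → V)
  (a a' b b' : V), Stg G v n z → Fab G v n z → LtA G v n z b a a' → b' ∈ sB G v n z → b' ≠ b →
  LtA G v n z b' a a' ∨ LtB G v n z a' b' b

/-- (LTB) the order on the other side. -/
def T_LTB : Prop := ∀ (V : Type) (G : SimpleGraph V) (v : V) (n : ℕ) (z : ℕ → V) (a b b' : V),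
  Stg G v n z → (LtB G v n z a b b' ↔ LtA G v n (rz n z) a b b') ∧
    (LtA G v n z b a b' ↔ LtB G v n (rz n z) b a b')

/-- (IC4) existence of a stable pair (no graphs). -/
def T_IC4 : Prop := ∀ (X : Type) (A B : Finset X) (L M : X → X → X → Prop), A.Nonempty →
  B.Nonempty → (∀ b ∈ B, ∀ a ∈ A, ∀ a', L b a a' → a' ∈ A) →
  (∀ a ∈ A, ∀ b ∈ B, ∀ b', M a b b' → b' ∈ B) →
  (∀ b ∈ B, ∀ a ∈ A, ∀ a' ∈ A, L b a a' → ¬ L b a' a) →
  (∀ a ∈ A, ∀ b ∈ B, ∀ b' ∈ B, M a b b' → ¬ M a b' b) →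
  (∀ b ∈ B, ∀ a ∈ A, ∀ a' ∈ A, ∀ c ∈ A, L b a a' → c ≠ a → c ≠ a' → L b a c ∨ L b c a') →
  (∀ a ∈ A, ∀ b ∈ B, ∀ b' ∈ B, ∀ c ∈ B, M a b b' → c ≠ b → c ≠ b' → M a b c ∨ M a c b') →
  (∀ b ∈ B, ∀ b' ∈ B, ∀ a ∈ A, ∀ a' ∈ A, L b a a' → b' ≠ b → L b' a a' ∨ M a' b' b) →
  ∃ a ∈ A, ∃ b ∈ B, (∀ a', ¬ L b a a') ∧ ∀ b', ¬ M a b b'

/-- (EPX) there is an even pair. -/
def T_EPX : Prop := ∀ (V : Type) [Finite V] (G : SimpleGraph V) (v : V) (n : ℕ) (z : ℕ → V),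
  Stg G v n z → Tame G v → ∃ a ∈ sA G v n z, ∃ b ∈ sB G v n z, EvP G a b

end Pool.Agent.H56.ER2
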